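import Mathlib

/-!
# Project FD: the compactness step

Countably many polynomial equations with integer coefficients and one inequality, any finite part of which is solvable in fields of
infinitely many characteristics, have a common solution in the algebraic closure of `ℚ`.
-/

namespace Pool.Agent.FD

open MvPolynomial

attribute [local instance] MvPolynomial.algebraMvPolynomial

/-- Compactness. -/
theorem cpt {σ : Type} [Finite σ] (F : ℕ → MvPolynomial σ ℤ) (g : MvPolynomial σ ℤ)
    (h : ∀ k : ℕ, {p : ℕ | p.Prime ∧ ∃ (K : Type) (_ : Field K) (_ : CharP K p) (T : σ → K),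
      (∀ t < k, aeval T (F t) = 0) ∧ aeval T g ≠ 0}.Infinite) :
    ∃ T : σ → AlgebraicClosure ℚ, (∀ t, aeval T (F t) = 0) ∧ aeval T g ≠ 0 := by
  classical
  set F' : ℕ → MvPolynomial (Option σ) ℤ := fun t => rename some (F t) with hF'
  set G' : MvPolynomial (Option σ) ℤ := 1 - X none * rename some g with hG'
  set J : Ideal (MvPolynomial (Option σ) ℤ) := Ideal.span (insert G' (Set.range F')) with hJ
  by_cases hT : J.map (algebraMap (MvPolynomial (Option σ) ℤ) (MvPolynomial (Option σ) ℚ)) = ⊤
  · exfalso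
    -- an integer in `J`
    obtain ⟨N, hN0, hN⟩ : ∃ N : ℤ, N ≠ 0 ∧ (C N : MvPolynomial (Option σ) ℤ) ∈ J := by
      have h1 : (1 : MvPolynomial (Option σ) ℚ) ∈
          J.map (algebraMap (MvPolynomial (Option σ) ℤ) (MvPolynomial (Option σ) ℚ)) := by
        rw [hT]
        exact Submodule.mem_top
      rw [IsLocalization.mem_map_algebraMap_iff ((nonZeroDivisors ℤ).map (C (σ := Option σ) (R := ℤ)))] at h1
      obtain ⟨⟨a, ⟨b, hb⟩⟩, h2⟩ := h1
      rw [one_mul] at h2
      obtain ⟨N, hN, rfl⟩ := hb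
      refine ⟨N, nonZeroDivisors.ne_zero hN, ?_⟩
      have h3 : (C N : MvPolynomial (Option σ) ℤ) = (a : MvPolynomial (Option σ) ℤ) := by
        have h4 : Function.Injective (algebraMap (MvPolynomial (Option σ) ℤ) (MvPolynomial (Option σ) ℚ)) :=
          MvPolynomial.map_injective _ (Int.cast_injective)
        exact h4 h2
      rw [h3]
      exact a.2
    obtain ⟨S, hS1, hS2⟩ := Submodule.mem_span_finite_of_mem_span hN
    -- a bound for the indices
    obtain ⟨k, hk⟩ : ∃ k : ℕ, ∀ s ∈ S, s = G' ∨ ∃ t < k, s = F' t := by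
      have h1 : ∀ s ∈ S, ∃ k : ℕ, s = G' ∨ ∃ t < k, s = F' t := by
        intro s hs
        rcases hS1 hs with h2 | ⟨t, ht⟩
        · exact ⟨0, Or.inl h2⟩
        · exact ⟨t + 1, Or.inr ⟨t, Nat.lt_succ_self t, ht.symm⟩⟩
      choose! k hk using h1
      refine ⟨S.sup k, fun s hs => ?_⟩
      rcases hk s hs with h2 | ⟨t, ht, h3⟩
      · exact Or.inl h2
      · exact Or.inr ⟨t, lt_of_lt_of_le ht (Finset.le_sup hs), h3⟩
    obtain ⟨p, ⟨hp, K, _, _, T, hT1, hT2⟩, hpN⟩ := (h k).exists_gt N.natAbs
    -- evaluation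
    let φ : MvPolynomial (Option σ) ℤ →ₐ[ℤ] K := aeval fun o => o.elim (aeval T g)⁻¹ T
    have hφ : ∀ f : MvPolynomial σ ℤ, φ (rename some f) = aeval T f := by
      intro f
      simp only [φ, aeval_rename]
      rfl
    have h5 : Ideal.span (S : Set (MvPolynomial (Option σ) ℤ)) ≤ RingHom.ker φ := by
      rw [Ideal.span_le]
      intro s hs
      rcases hk s hs with rfl | ⟨t, ht, rfl⟩
      · change φ G' = 0
        rw [hG', map_sub, map_one, map_mul, hφ]
        simp only [φ, aeval_X, Option.elim_none]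
        rw [inv_mul_cancel₀ hT2, sub_self]
      · change φ (F' t) = 0
        rw [hF', hφ]
        exact hT1 t ht
    have h6 : φ (C N) = 0 := h5 hS2
    rw [show φ (C N) = algebraMap ℤ K N from aeval_C _ _, eq_intCast, CharP.intCast_eq_zero_iff K p] at h6
    have h7 := Int.le_of_dvd (by omega) ((Int.dvd_natAbs).2 h6)
    omega
  · obtain ⟨m, hm, hle⟩ := Ideal.exists_le_maximal _ hT
    let L := MvPolynomial (Option σ) ℚ ⧸ m
    letI : Field L := Ideal.Quotient.field m
    haveI : Algebra.FiniteType ℚ L :=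
      Algebra.FiniteType.of_surjective (Ideal.Quotient.mkₐ ℚ m) (Ideal.Quotient.mkₐ_surjective ℚ m)
    haveI : Module.Finite ℚ L := finite_of_finite_type_of_isJacobsonRing ℚ L
    let ι : L →ₐ[ℚ] AlgebraicClosure ℚ := IsAlgClosed.lift
    let ψ : MvPolynomial (Option σ) ℚ →ₐ[ℚ] AlgebraicClosure ℚ := ι.comp (Ideal.Quotient.mkₐ ℚ m)
    have hψ : ∀ f : MvPolynomial (Option σ) ℤ, f ∈ J → ψ (algebraMap _ _ f) = 0 := by
      intro f hf
      have h1 : algebraMap (MvPolynomial (Option σ) ℤ) (MvPolynomial (Option σ) ℚ) f ∈ m :=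
        hle (Ideal.mem_map_of_mem _ hf)
      change ι (Ideal.Quotient.mk m _) = 0
      rw [Ideal.Quotient.eq_zero_iff_mem.2 h1, map_zero]
    let T : σ → AlgebraicClosure ℚ := fun i => ψ (X (some i))
    have hT' : ∀ f : MvPolynomial σ ℤ, ψ (algebraMap _ _ (rename some f)) = aeval T f := by
      intro f
      let a : MvPolynomial σ ℤ →+* AlgebraicClosure ℚ :=
        (ψ : MvPolynomial (Option σ) ℚ →+* _).comp ((algebraMap (MvPolynomial (Option σ) ℤ) (MvPolynomial (Option σ) ℚ)).comp
          (rename some : MvPolynomial σ ℤ →ₐ[ℤ] _).toRingHom)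
      have h2 : a = (aeval T : MvPolynomial σ ℤ →ₐ[ℤ] _).toRingHom := by
        apply MvPolynomial.ringHom_ext
        · intro r
          simp [a]
        · intro i
          simp only [a, RingHom.coe_comp, Function.comp_apply, AlgHom.toRingHom_eq_coe, RingHom.coe_coe, rename_X, aeval_X]
          rw [show algebraMap (MvPolynomial (Option σ) ℤ) (MvPolynomial (Option σ) ℚ) (X (some i)) = X (some i) from
            map_X _ _]
      exact congrArg (fun f' => f' f) h2
    refine ⟨T, fun t => ?_, fun h3 => ?_⟩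
    · rw [← hT']
      exact hψ _ (Ideal.subset_span (Set.mem_insert_of_mem _ ⟨t, rfl⟩))
    · have h4 := hψ G' (Ideal.subset_span (Set.mem_insert _ _))
      rw [hG', map_sub, map_sub, map_mul, map_mul, hT', h3, mul_zero, sub_zero, map_one, map_one] at h4
      exact one_ne_zero h4

end Pool.Agent.FD
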