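import Pool.Agent.FD.Cpt

/-!
# Project FD: from the gap theorem and the sparseness of the relations to density zero
-/

namespace Pool.Agent.FD

open Finset

/-- `p` divides the numerators of `B_(p-j)` for all odd `j` in `(w, v]`. -/
def GapAt (w v p : ℕ) : Prop := ∀ j : ℕ, Odd j → w < j → j ≤ v → (p : ℤ) ∣ (bernoulli (p - j)).num

open Classical in
/-- The gap theorem. -/
def Gap : Prop := ∃ A : ℕ, ∀ ε : ℝ, 0 < ε → ∃ w₀ : ℕ, ∀ w : ℕ, w₀ ≤ w → ∃ X₀ : ℕ, ∀ X : ℕ, X₀ ≤ X →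
  ∑ p ∈ (Icc 1 X).filter (fun p : ℕ => p.Prime ∧ ∀ j : ℕ, Odd j → w < j → j ≤ w ^ A → (p : ℤ) ∣ (bernoulli (p - j)).num),
    Real.log p ≤ ε * X

/-- Some solution in characteristic `p` of all the Kummer relations, with `g ≠ 0`. -/
def BadAt {σ : Type} (G : ℕ → MvPolynomial σ ℤ) (g : MvPolynomial σ ℤ) (p : ℕ) : Prop :=
  ∃ (K : Type) (_ : Field K) (_ : CharP K p) (T : σ → K), MvPolynomial.aeval T g ≠ 0 ∧
    ∀ m, Even m → 2 ≤ m → 2 * m + 1 ≤ p → (p : ℤ) ∣ (bernoulli (p - 1 - m)).num ∨ MvPolynomial.aeval T (G m) = 0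

/-- A large `H` for a stage. -/
theorem exists_stage (a b w : ℕ) : ∃ H : ℕ, w ≤ H ∧ 2 ≤ H ∧ ((H : ℝ) ^ a ≤ Real.exp (H / (b + 1))) := by
  have h1 : (fun x : ℝ => x ^ a) =o[Filter.atTop] fun x => Real.exp ((1 / ((b : ℝ) + 1)) * x) :=
    isLittleO_pow_exp_pos_mul_atTop a (by positivity)
  have h2 := (h1.bound one_pos)
  have h3 := (tendsto_natCast_atTop_atTop (R := ℝ)).eventually h2
  obtain ⟨H, hH, hH2⟩ := (h3.and (Filter.eventually_ge_atTop (max w 2))).exists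
  refine ⟨H, le_trans (le_max_left _ _) hH2, le_trans (le_max_right _ _) hH2, ?_⟩
  rw [Real.norm_eq_abs, Real.norm_eq_abs, one_mul, abs_of_pos (Real.exp_pos _)] at hH
  refine (le_abs_self _).trans (hH.trans (le_of_eq ?_))
  congr 1
  ring

/-- Compactness with the stages: for all but finitely many bad `p` some interval of the first `S` stages is a gap. -/
theorem stages {σ : Type} [Finite σ] (A : ℕ) (G : ℕ → MvPolynomial σ ℤ) (g : MvPolynomial σ ℤ)
    (hsk : ∀ T : σ → AlgebraicClosure ℚ, MvPolynomial.aeval T g ≠ 0 → ∃ (D : ℕ) (c : ℝ), 0 < c ∧ ∀ (J : ℕ) (S : Finset ℕ),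
      (∀ m ∈ S, Even m ∧ 2 ≤ m ∧ J ≤ m ∧ (m : ℝ) ≤ Real.exp (c * J) ∧ MvPolynomial.aeval T (G m) = 0) → S.card ≤ D)
    (H : ℕ → ℕ) (hH2 : ∀ s, 2 ≤ H s) (hH : ∀ s, ((H s : ℝ) ^ (A ^ (s + 1)) ≤ Real.exp (H s / (s + 1)))) :
    ∃ S : ℕ, {p : ℕ | p.Prime ∧ BadAt G g p ∧ ∀ s < S, ∀ k ≤ s, ¬ GapAt (H s ^ A ^ k) (H s ^ A ^ (k + 1)) p}.Finite := by
  classical
  by_contra hcon
  push Not at hcon
  -- the intervals
  let I : ℕ → ℕ → Finset ℕ := fun s k =>
    (range (H s ^ A ^ (k + 1) + 1)).filter fun m => Even m ∧ 2 ≤ m ∧ H s ^ A ^ k < m + 1 ∧ m + 1 ≤ H s ^ A ^ (k + 1)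
  have hI : ∀ s k m, m ∈ I s k ↔ Even m ∧ 2 ≤ m ∧ H s ^ A ^ k < m + 1 ∧ m + 1 ≤ H s ^ A ^ (k + 1) := by
    intro s k m
    simp only [I, mem_filter, mem_range]
    constructor
    · exact fun h => h.2
    · intro h
      exact ⟨by omega, h⟩
  let F : ℕ → MvPolynomial σ ℤ := fun t =>
    if (Nat.unpair t).2 ≤ (Nat.unpair t).1 then ∏ m ∈ I (Nat.unpair t).1 (Nat.unpair t).2, G m else 0
  have hcpt : ∀ k : ℕ, {p : ℕ | p.Prime ∧ ∃ (K : Type) (_ : Field K) (_ : CharP K p) (T : σ → K),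
      (∀ t < k, MvPolynomial.aeval T (F t) = 0) ∧ MvPolynomial.aeval T g ≠ 0}.Infinite := by
    intro k0
    -- a bound for the ends of the intervals
    set B : ℕ := ∑ s ∈ range k0, ∑ k ∈ range (s + 1), (2 * H s ^ A ^ (k + 1) + 3) with hB
    have h1 : ({p : ℕ | p.Prime ∧ BadAt G g p ∧ ∀ s < k0, ∀ k ≤ s, ¬ GapAt (H s ^ A ^ k) (H s ^ A ^ (k + 1)) p} \
        (↑(range (B + 1)) : Set ℕ)).Infinite :=
      (Set.not_finite.1 (fun hf => hcon k0 hf)).sdiff (finite_toSet _)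
    refine h1.mono ?_
    rintro p ⟨⟨hp, ⟨K, _, _, T, hg, hrel⟩, hgap⟩, hpB⟩
    have hpB' : B < p := by
      rw [mem_coe, mem_range] at hpB
      omega
    refine ⟨hp, K, inferInstance, inferInstance, T, fun t ht => ?_, hg⟩
    simp only [F]
    split_ifs with hks
    · set s := (Nat.unpair t).1 with hs
      set k := (Nat.unpair t).2 with hk
      have hst : s < k0 := lt_of_le_of_lt (Nat.unpair_left_le t) ht
      have h2 := hgap s hst k hks
      unfold GapAt at h2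
      push Not at h2
      obtain ⟨j, hj1, hj2, hj3, hj4⟩ := h2
      have h3 : 2 * H s ^ A ^ (k + 1) + 3 ≤ B := by
        have h4 : 2 * H s ^ A ^ (k + 1) + 3 ≤ ∑ k ∈ range (s + 1), (2 * H s ^ A ^ (k + 1) + 3) :=
          single_le_sum (f := fun k => 2 * H s ^ A ^ (k + 1) + 3) (fun _ _ => Nat.zero_le _) (mem_range.2 (by omega))
        have h5 : ∑ k ∈ range (s + 1), (2 * H s ^ A ^ (k + 1) + 3) ≤ B :=
          single_le_sum (f := fun s => ∑ k ∈ range (s + 1), (2 * H s ^ A ^ (k + 1) + 3)) (fun _ _ => Nat.zero_le _)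
            (mem_range.2 hst)
        omega
      have hpos : 1 < H s ^ A ^ k := by
        rcases Nat.eq_zero_or_pos (A ^ k) with h0 | h0
        · -- then `A = 0`, `k > 0`, and the interval is empty
          exfalso
          have hA : A = 0 := by
            by_contra hA
            exact (pow_ne_zero k hA) h0
          rw [h0, pow_zero] at hj2
          rw [hA, zero_pow (by omega), pow_zero] at hj3
          omega
        · exact Nat.one_lt_pow h0.ne' (by have := hH2 s; omega)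
      obtain ⟨i, rfl⟩ : ∃ i, j = i + 1 := ⟨j - 1, by omega⟩
      have h6 : Even i := by
        rw [Nat.odd_add_one] at hj1
        exact Nat.not_odd_iff_even.1 hj1
      have h7 : 2 ≤ i := by
        rcases h6 with ⟨q, hq⟩
        omega
      rcases hrel i h6 h7 (by omega) with h8 | h8
      · exfalso
        apply hj4
        rw [show p - (i + 1) = p - 1 - i by omega]
        exact h8
      · rw [map_prod]
        exact prod_eq_zero ((hI s k i).2 ⟨h6, h7, hj2, hj3⟩) h8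
    · rw [map_zero]
  obtain ⟨T, hT, hg⟩ := cpt F g hcpt
  obtain ⟨D, c, hc, hD⟩ := hsk T hg
  -- a late stage
  obtain ⟨s, hs1, hs2⟩ : ∃ s : ℕ, D ≤ s ∧ 1 / ((s : ℝ) + 1) ≤ c := by
    obtain ⟨s, hs⟩ := exists_nat_gt (1 / c)
    refine ⟨max D s, le_max_left _ _, ?_⟩
    rw [div_le_iff₀ (by positivity)]
    rw [div_lt_iff₀ hc] at hs
    have h1 : (s : ℝ) ≤ ((max D s : ℕ) : ℝ) := by exact_mod_cast le_max_right _ _
    nlinarith
  have hex : ∀ k, k ≤ s → ∃ m ∈ I s k, MvPolynomial.aeval T (G m) = 0 := by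
    intro k hk
    have h1 := hT (Nat.pair s k)
    simp only [F, Nat.unpair_pair] at h1
    rw [if_pos hk, map_prod, prod_eq_zero_iff] at h1
    exact h1
  choose! m hm hm0 using hex
  have hmono : ∀ k k', k < k' → k' ≤ s → m k < m k' := by
    intro k k' hkk hk'
    have h1 := (hI s k (m k)).1 (hm k (by omega))
    have h2 := (hI s k' (m k')).1 (hm k' hk')
    have h3 : H s ^ A ^ (k + 1) ≤ H s ^ A ^ k' := by
      rcases Nat.eq_zero_or_pos A with hA | hA
      · subst hA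
        rw [zero_pow (by omega : k + 1 ≠ 0), zero_pow (by omega : k' ≠ 0)]
      · exact Nat.pow_le_pow_right (by have := hH2 s; omega) (Nat.pow_le_pow_right hA (by omega))
    omega
  have hinj : Set.InjOn m (range (s + 1) : Set ℕ) := by
    intro k hk k' hk' hkk
    rw [mem_coe, mem_range] at hk hk'
    rcases lt_trichotomy k k' with h1 | h1 | h1
    · have := hmono k k' h1 (by omega)
      omega
    · exact h1
    · have := hmono k' k h1 (by omega)
      omega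
  have hcard := hD (H s) ((range (s + 1)).image m) (by
    intro x hx
    rw [mem_image] at hx
    obtain ⟨k, hk, rfl⟩ := hx
    rw [mem_range] at hk
    have hk' : k ≤ s := by omega
    have h1 := (hI s k (m k)).1 (hm k hk')
    have hA : 0 < A := by
      rcases Nat.eq_zero_or_pos A with hA | hA
      · subst hA
        rw [zero_pow (by omega : k + 1 ≠ 0), pow_zero] at h1
        omega
      · exact hA
    have h2 : H s ≤ H s ^ A ^ k := by
      calc H s = H s ^ 1 := (pow_one _).symm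
        _ ≤ H s ^ A ^ k := Nat.pow_le_pow_right (by have := hH2 s; omega) (Nat.one_le_pow _ _ hA)
    refine ⟨h1.1, h1.2.1, by omega, ?_, hm0 k hk'⟩
    have h3 : m k ≤ H s ^ A ^ (s + 1) := by
      have h4 : H s ^ A ^ (k + 1) ≤ H s ^ A ^ (s + 1) :=
        Nat.pow_le_pow_right (by have := hH2 s; omega) (Nat.pow_le_pow_right hA (by omega))
      omega
    have h5 : ((m k : ℕ) : ℝ) ≤ (H s : ℝ) ^ A ^ (s + 1) := by exact_mod_cast h3
    refine h5.trans ((hH s).trans (Real.exp_le_exp.2 ?_))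
    rw [div_eq_mul_one_div, mul_comm]
    exact mul_le_mul_of_nonneg_right hs2 (Nat.cast_nonneg _))
  rw [card_image_of_injOn hinj, card_range] at hcard
  omega

theorem sum_union_le {f : ℕ → ℝ} (hf : ∀ p, 0 ≤ f p) (S T : Finset ℕ) : ∑ p ∈ S ∪ T, f p ≤ ∑ p ∈ S, f p + ∑ p ∈ T, f p := by
  rw [← sum_union_inter]
  exact le_add_of_nonneg_right (sum_nonneg fun p _ => hf p)

theorem sum_biUnion_le {f : ℕ → ℝ} (hf : ∀ p, 0 ≤ f p) (S : Finset ℕ) (T : ℕ → Finset ℕ) :
    ∑ p ∈ S.biUnion T, f p ≤ ∑ s ∈ S, ∑ p ∈ T s, f p := by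
  classical
  induction S using Finset.induction_on with
  | empty => simp
  | insert a S ha ih =>
    rw [biUnion_insert, sum_insert ha]
    exact (sum_union_le hf _ _).trans (add_le_add le_rfl ih)

/-- The density theorem: from the gap theorem and the sparseness. -/
theorem dens {σ ι : Type} [Finite σ] [Finite ι] (hgap : Gap) (G : ℕ → MvPolynomial σ ℤ) (g : ι → MvPolynomial σ ℤ)
    (hsk : ∀ T : σ → AlgebraicClosure ℚ, (∃ i, MvPolynomial.aeval T (g i) ≠ 0) → ∃ (D : ℕ) (c : ℝ), 0 < c ∧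
      ∀ (J : ℕ) (S : Finset ℕ),
      (∀ m ∈ S, Even m ∧ 2 ≤ m ∧ J ≤ m ∧ (m : ℝ) ≤ Real.exp (c * J) ∧ MvPolynomial.aeval T (G m) = 0) → S.card ≤ D)
    (ε : ℝ) (hε : 0 < ε) (Bad : ℕ → Prop) [DecidablePred Bad] (hBad : ∀ p, Bad p → p.Prime ∧ ∃ i, BadAt G (g i) p) :
    ∃ X₀ : ℕ, ∀ X : ℕ, X₀ ≤ X → ∑ p ∈ (Icc 1 X).filter Bad, Real.log p ≤ ε * X := by
  classical
  obtain ⟨A, hA⟩ := hgap
  -- the stages
  have hε' : ∀ s : ℕ, 0 < ε / (2 ^ (s + 2) * (s + 1)) := fun s => by positivity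
  choose w₀ hw₀ using fun s : ℕ => hA _ (hε' s)
  choose H hHw hH2 hHe using fun s : ℕ => exists_stage (A ^ (s + 1)) s (w₀ s)
  have hfin : ∀ i : ι, ∃ S : ℕ, {p : ℕ | p.Prime ∧ BadAt G (g i) p ∧ ∀ s < S, ∀ k ≤ s,
      ¬ GapAt (H s ^ A ^ k) (H s ^ A ^ (k + 1)) p}.Finite := fun i =>
    stages A G (g i) (fun T hT => hsk T ⟨i, hT⟩) H hH2 hHe
  choose S₁ hS₁ using hfin
  have := Fintype.ofFinite ι
  obtain ⟨S, hS⟩ : ∃ S, ∀ i, S₁ i ≤ S := ⟨univ.sup S₁, fun i => le_sup (mem_univ i)⟩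
  have hfin2 : {p : ℕ | Bad p ∧ ∀ s < S, ∀ k ≤ s, ¬ GapAt (H s ^ A ^ k) (H s ^ A ^ (k + 1)) p}.Finite := by
    refine (Set.finite_iUnion hS₁).subset ?_
    rintro p ⟨hp, hg⟩
    obtain ⟨hp1, i, hi⟩ := hBad p hp
    exact Set.mem_iUnion.2 ⟨i, hp1, hi, fun s hs => hg s (lt_of_lt_of_le hs (hS i))⟩
  -- the bound for one interval
  have hone : ∀ s k : ℕ, ∃ X₀ : ℕ, ∀ X : ℕ, X₀ ≤ X →
      ∑ p ∈ (Icc 1 X).filter (fun p => p.Prime ∧ GapAt (H s ^ A ^ k) (H s ^ A ^ (k + 1)) p), Real.log p ≤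
        ε / (2 ^ (s + 2) * (s + 1)) * X := by
    intro s k
    rcases Nat.eq_zero_or_pos A with h0 | h0
    · -- `A = 0`
      obtain ⟨X₀, hX₀⟩ := hw₀ s (max (w₀ s) 1) (le_max_left _ _)
      refine ⟨X₀, fun X hX => le_trans (sum_le_sum_of_subset_of_nonneg ?_ ?_) (hX₀ X hX)⟩
      · intro p hp
        rw [mem_filter] at hp ⊢
        refine ⟨hp.1, hp.2.1, fun j _ h2 h3 => ?_⟩
        rw [h0, pow_zero] at h3
        have := le_max_right (w₀ s) 1
        omega
      · intro p _ _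
        exact Real.log_natCast_nonneg p
    · obtain ⟨X₀, hX₀⟩ := hw₀ s (H s ^ A ^ k) (by
        refine (hHw s).trans ?_
        calc H s = H s ^ 1 := (pow_one _).symm
          _ ≤ H s ^ A ^ k := Nat.pow_le_pow_right (by have := hH2 s; omega) (Nat.one_le_pow _ _ h0))
      refine ⟨X₀, fun X hX => le_trans (sum_le_sum_of_subset_of_nonneg ?_ ?_) (hX₀ X hX)⟩
      · intro p hp
        rw [mem_filter] at hp ⊢
        refine ⟨hp.1, hp.2.1, fun j h1 h2 h3 => hp.2.2 j h1 h2 ?_⟩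
        rw [← pow_mul, ← pow_succ] at h3
        exact h3
      · intro p _ _
        exact Real.log_natCast_nonneg p
  choose X₁ hX₁ using hone
  set M : ℝ := ∑ p ∈ hfin2.toFinset, Real.log p with hM
  obtain ⟨X₂, hX₂⟩ := exists_nat_ge (2 * M / ε)
  refine ⟨max X₂ (∑ s ∈ range S, ∑ k ∈ range (s + 1), X₁ s k), fun X hX => ?_⟩
  have hX2 : X₂ ≤ X := le_trans (le_max_left _ _) hX
  have hX1 : ∀ s < S, ∀ k ≤ s, X₁ s k ≤ X := by
    intro s hs k hk
    have h1 : X₁ s k ≤ ∑ k ∈ range (s + 1), X₁ s k :=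
      single_le_sum (f := fun k => X₁ s k) (fun _ _ => Nat.zero_le _) (mem_range.2 (by omega))
    have h2 : ∑ k ∈ range (s + 1), X₁ s k ≤ ∑ s ∈ range S, ∑ k ∈ range (s + 1), X₁ s k :=
      single_le_sum (f := fun s => ∑ k ∈ range (s + 1), X₁ s k) (fun _ _ => Nat.zero_le _) (mem_range.2 hs)
    exact h1.trans (h2.trans ((le_max_right _ _).trans hX))
  have hlog : ∀ p : ℕ, 0 ≤ Real.log p := fun p => Real.log_natCast_nonneg p
  -- the cover
  have hsub : (Icc 1 X).filter Bad ⊆ hfin2.toFinset ∪ (range S).biUnion fun s => (range (s + 1)).biUnion fun k =>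
      (Icc 1 X).filter (fun p => p.Prime ∧ GapAt (H s ^ A ^ k) (H s ^ A ^ (k + 1)) p) := by
    intro p hp
    rw [mem_filter] at hp
    rw [mem_union]
    by_cases h1 : ∀ s < S, ∀ k ≤ s, ¬ GapAt (H s ^ A ^ k) (H s ^ A ^ (k + 1)) p
    · left
      rw [Set.Finite.mem_toFinset]
      exact ⟨hp.2, h1⟩
    · right
      push Not at h1
      obtain ⟨s, hs, k, hk, h2⟩ := h1
      rw [mem_biUnion]
      refine ⟨s, mem_range.2 hs, ?_⟩
      rw [mem_biUnion]
      refine ⟨k, mem_range.2 (by omega), ?_⟩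
      rw [mem_filter]
      exact ⟨hp.1, (hBad p hp.2).1, h2⟩
  have h3 : ∑ p ∈ (Icc 1 X).filter Bad, Real.log p ≤
      M + ∑ s ∈ range S, ∑ k ∈ range (s + 1), ε / (2 ^ (s + 2) * (s + 1)) * X := by
    refine (sum_le_sum_of_subset_of_nonneg hsub fun p _ _ => hlog p).trans ?_
    refine (sum_union_le (fun p => hlog p) _ _).trans ?_
    refine add_le_add le_rfl ?_
    refine (sum_biUnion_le (fun p => hlog p) _ _).trans ?_
    refine sum_le_sum fun s hs => ?_
    refine (sum_biUnion_le (fun p => hlog p) _ _).trans ?_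
    refine sum_le_sum fun k hk => ?_
    exact hX₁ s k X (hX1 s (mem_range.1 hs) k (by have := mem_range.1 hk; omega))
  have h4 : ∑ s ∈ range S, ∑ k ∈ range (s + 1), ε / (2 ^ (s + 2) * (s + 1)) * (X : ℝ) ≤ ε / 2 * X := by
    have h5 : ∀ s ∈ range S, ∑ k ∈ range (s + 1), ε / (2 ^ (s + 2) * (s + 1)) * (X : ℝ) = (ε / 4 * X) * (1 / 2) ^ s := by
      intro s _
      rw [sum_const, card_range, nsmul_eq_mul, Nat.cast_add, Nat.cast_one, one_div, inv_pow, pow_add]
      have : (s : ℝ) + 1 ≠ 0 := by positivity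
      field_simp
      ring
    rw [sum_congr rfl h5, ← mul_sum]
    have h6 : ∑ i ∈ range S, ((1 : ℝ) / 2) ^ i ≤ 2 := by
      have h9 : ∀ S : ℕ, ∑ i ∈ range S, ((1 : ℝ) / 2) ^ i = 2 - 2 * (1 / 2) ^ S := by
        intro S
        induction S with
        | zero => simp
        | succ S ih =>
          rw [sum_range_succ, ih, pow_succ]
          ring
      rw [h9]
      have : (0 : ℝ) < (1 / 2) ^ S := by positivity
      linarith
    calc ε / 4 * X * ∑ i ∈ range S, ((1 : ℝ) / 2) ^ i ≤ ε / 4 * X * 2 :=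
          mul_le_mul_of_nonneg_left h6 (by positivity)
      _ = ε / 2 * X := by ring
  have h7 : M ≤ ε / 2 * X := by
    have h8 : 2 * M / ε ≤ X := hX₂.trans (by exact_mod_cast hX2)
    rw [div_le_iff₀ hε] at h8
    linarith
  linarith

end Pool.Agent.FD
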