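import Pool.Agent.FD.Dens

/-!
# Project FD: the density theorem for the Kummer relations `∑ LL m (T v) = 0`
-/

namespace Pool.Agent.FD

open Finset

/-- The numerator of `∑_v PE_m(X_v)/(1-X_v)^(m+1)`. -/
noncomputable def numG (n : ℕ) (PE : ℕ → Polynomial ℤ) (m : ℕ) : MvPolynomial (Fin n) ℤ :=
  ∑ v, Polynomial.aeval (MvPolynomial.X v) (PE m) * ∏ u ∈ univ.erase v, (1 - MvPolynomial.X u) ^ (m + 1)

theorem numG_zero_iff {n : ℕ} (PE : ℕ → Polynomial ℤ) (m : ℕ) {K : Type*} [Field K] (T : Fin n → K) (hT : ∀ v, T v ≠ 1) :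
    MvPolynomial.aeval T (numG n PE m) = 0 ↔ ∑ v, Polynomial.aeval (T v) (PE m) / (1 - T v) ^ (m + 1) = 0 := by
  have h1 : ∀ v, (1 - T v) ^ (m + 1) ≠ 0 := fun v => pow_ne_zero _ (sub_ne_zero.2 (Ne.symm (hT v)))
  have h2 : MvPolynomial.aeval T (numG n PE m) =
      (∏ u, (1 - T u) ^ (m + 1)) * ∑ v, Polynomial.aeval (T v) (PE m) / (1 - T v) ^ (m + 1) := by
    rw [numG, map_sum, mul_sum]
    refine sum_congr rfl fun v _ => ?_
    rw [map_mul, map_prod, ← mul_prod_erase univ _ (mem_univ v)]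
    have h3 : MvPolynomial.aeval T (Polynomial.aeval (MvPolynomial.X v : MvPolynomial (Fin n) ℤ) (PE m)) =
        Polynomial.aeval (T v) (PE m) := by
      rw [← Polynomial.aeval_algHom_apply, MvPolynomial.aeval_X]
    have h4 : ∏ u ∈ univ.erase v, MvPolynomial.aeval T ((1 - MvPolynomial.X u : MvPolynomial (Fin n) ℤ) ^ (m + 1)) =
        ∏ u ∈ univ.erase v, (1 - T u) ^ (m + 1) := by
      refine prod_congr rfl fun u _ => ?_
      rw [map_pow, map_sub, map_one, MvPolynomial.aeval_X]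
    rw [h3, h4]
    have := h1 v
    field_simp
  rw [h2, mul_eq_zero, or_iff_right (prod_ne_zero_iff.2 fun v _ => h1 v)]

/-- `T_v ≠ 0, 1` and `T` is not stable under inversion, as the nonvanishing of one of finitely many polynomials. -/
noncomputable def numg (n : ℕ) (f : Equiv.Perm (Fin n) → Fin n) : MvPolynomial (Fin n) ℤ :=
  (∏ v, (MvPolynomial.X v * (1 - MvPolynomial.X v))) *
    ∏ s : Equiv.Perm (Fin n), (MvPolynomial.X (s (f s)) * MvPolynomial.X (f s) - 1)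

theorem numg_ne_iff {n : ℕ} {K : Type*} [Field K] (T : Fin n → K) :
    (∃ f, MvPolynomial.aeval T (numg n f) ≠ 0) ↔
      (∀ v, T v ≠ 0) ∧ (∀ v, T v ≠ 1) ∧ ¬ ∃ s : Equiv.Perm (Fin n), ∀ v, T (s v) * T v = 1 := by
  have h1 : ∀ f, MvPolynomial.aeval T (numg n f) =
      (∏ v, (T v * (1 - T v))) * ∏ s : Equiv.Perm (Fin n), (T (s (f s)) * T (f s) - 1) := by
    intro f
    rw [numg, map_mul, map_prod, map_prod]
    simp only [map_mul, map_sub, map_one, MvPolynomial.aeval_X]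
  constructor
  · rintro ⟨f, hf⟩
    rw [h1, mul_ne_zero_iff, prod_ne_zero_iff, prod_ne_zero_iff] at hf
    refine ⟨fun v => ?_, fun v => ?_, ?_⟩
    · exact (mul_ne_zero_iff.1 (hf.1 v (mem_univ v))).1
    · have := (mul_ne_zero_iff.1 (hf.1 v (mem_univ v))).2
      exact fun h => this (by rw [h, sub_self])
    · rintro ⟨s, hs⟩
      exact hf.2 s (mem_univ s) (by rw [hs, sub_self])
  · rintro ⟨h2, h3, h4⟩
    push Not at h4
    choose f hf using h4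
    refine ⟨f, ?_⟩
    rw [h1, mul_ne_zero_iff, prod_ne_zero_iff, prod_ne_zero_iff]
    refine ⟨fun v _ => mul_ne_zero (h2 v) (sub_ne_zero.2 (Ne.symm (h3 v))), fun s _ => sub_ne_zero.2 (hf s)⟩

/-- The density theorem for the Kummer relations. -/
theorem dens_PE (n : ℕ) (PE : ℕ → Polynomial ℤ) (hgap : Gap)
    (hsk : ∀ T : Fin n → AlgebraicClosure ℚ, (∀ v, T v ≠ 0) → (∀ v, T v ≠ 1) →
      (¬ ∃ s : Equiv.Perm (Fin n), ∀ v, T (s v) * T v = 1) → ∃ (D : ℕ) (c : ℝ), 0 < c ∧ ∀ (J : ℕ) (S : Finset ℕ),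
      (∀ m ∈ S, Even m ∧ 2 ≤ m ∧ J ≤ m ∧ (m : ℝ) ≤ Real.exp (c * J) ∧
        ∑ v, Polynomial.aeval (T v) (PE m) / (1 - T v) ^ (m + 1) = 0) → S.card ≤ D)
    (ε : ℝ) (hε : 0 < ε) (Bad : ℕ → Prop) [DecidablePred Bad]
    (hBad : ∀ p, Bad p → p.Prime ∧ ∃ (K : Type) (_ : Field K) (_ : CharP K p) (T : Fin n → K),
      (∀ v, T v ≠ 0) ∧ (∀ v, T v ≠ 1) ∧ (¬ ∃ s : Equiv.Perm (Fin n), ∀ v, T (s v) * T v = 1) ∧
      ∀ m, Even m → 2 ≤ m → 2 * m + 1 ≤ p → (p : ℤ) ∣ (bernoulli (p - 1 - m)).num ∨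
        ∑ v, Polynomial.aeval (T v) (PE m) / (1 - T v) ^ (m + 1) = 0) :
    ∃ X₀ : ℕ, ∀ X : ℕ, X₀ ≤ X → ∑ p ∈ (Icc 1 X).filter Bad, Real.log p ≤ ε * X := by
  refine dens (σ := Fin n) (ι := Equiv.Perm (Fin n) → Fin n) hgap (numG n PE) (numg n) ?_ ε hε Bad ?_
  · intro T hT
    obtain ⟨h0, h1, h2⟩ := (numg_ne_iff T).1 hT
    obtain ⟨D, c, hc, hD⟩ := hsk T h0 h1 h2
    refine ⟨D, c, hc, fun J S hS => hD J S fun m hm => ?_⟩
    obtain ⟨h3, h4, h5, h6, h7⟩ := hS m hm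
    exact ⟨h3, h4, h5, h6, (numG_zero_iff PE m T h1).1 h7⟩
  · intro p hp
    obtain ⟨hp1, K, _, _, T, h0, h1, h2, h3⟩ := hBad p hp
    obtain ⟨f, hf⟩ := (numg_ne_iff T).2 ⟨h0, h1, h2⟩
    refine ⟨hp1, f, K, inferInstance, inferInstance, T, hf, fun m hm hm2 hmp => ?_⟩
    rcases h3 m hm hm2 hmp with h4 | h4
    · exact Or.inl h4
    · exact Or.inr ((numG_zero_iff PE m T h1).2 h4)

end Pool.Agent.FD
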