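import Pool.Agent.FD.DensG
import Pool.Agent.FD.Inst
import Pool.Agent.H69.FD.Eul
import Pool.Agent.H71.FD.Dens

/-!
# Project FD/AB: the density theorem for weighted relations `∑ c_v LL m (T v) = 0`

The weights are polynomials `C v` in further variables `z` (`Fin r`), which satisfy the equations `R t = 0`.
-/

namespace Pool.Agent.FD

open Finset H69FD Pool.Agent.H71.FD

open Classical in
/-- The weighted symmetry under inversion. -/
def SymW {F : Type*} [Field F] {n : ℕ} (e : ℕ) (T c : Fin n → F) : Prop :=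
  ∀ τ : F, ∑ v ∈ univ.filter (fun v => T v = τ), c v = (-1) ^ e * ∑ v ∈ univ.filter (fun v => T v * τ = 1), c v

/-- The sparseness of the weighted relations over `ℚ̄`, counting form. -/
def SparseW : Prop :=
  ∀ (n e : ℕ) (T c : Fin n → AlgebraicClosure ℚ), (∀ v, T v ≠ 0) → (∀ v, T v ≠ 1) → ¬ SymW e T c →
    ∃ (D : ℕ) (c₀ : ℝ), 0 < c₀ ∧ ∀ (J : ℕ) (S : Finset ℕ),
    (∀ m ∈ S, m % 2 = e % 2 ∧ 2 ≤ m ∧ J ≤ m ∧ (m : ℝ) ≤ Real.exp (c₀ * J) ∧ ∑ v, c v * LL m (T v) = 0) → S.card ≤ D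

/-- The set of the `p` with a solution which is not symmetric. -/
def FDBadW (e n r : ℕ) (C : Fin n → MvPolynomial (Fin r) ℤ) (R : ℕ → MvPolynomial (Fin r) ℤ)
    (Zok : ℕ → (ℕ → Prop) → Prop) (p : ℕ) : Prop :=
  ∃ Z, Zok p Z ∧ ∃ (Ω : Type) (_ : Field Ω) (_ : CharP Ω p) (T : Fin n → Ω) (z : Fin r → Ω),
    (∀ t, MvPolynomial.aeval z (R t) = 0) ∧ (∀ v, T v ≠ 0) ∧ (∀ v, T v ≠ 1) ∧
    ¬ SymW e T (fun v => MvPolynomial.aeval z (C v)) ∧
    ∀ m, m % 2 = e % 2 → 2 ≤ m → 2 * m + 1 ≤ p → Z m ∨ ∑ v, MvPolynomial.aeval z (C v) * LL m (T v) = 0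

/-- The numerator of the weighted relation. -/
noncomputable def numW {n r : ℕ} (C : Fin n → MvPolynomial (Fin r) ℤ) (PE : ℕ → Polynomial ℤ) (m : ℕ) :
    MvPolynomial (Fin n ⊕ Fin r) ℤ :=
  ∑ v, MvPolynomial.rename Sum.inr (C v) * (Polynomial.aeval (MvPolynomial.X (Sum.inl v)) (PE m) *
    ∏ u ∈ univ.erase v, (1 - MvPolynomial.X (Sum.inl u)) ^ (m + 1))

theorem numW_zero_iff {n r : ℕ} (C : Fin n → MvPolynomial (Fin r) ℤ) (m : ℕ) {K : Type*} [Field K] (T : Fin n → K)
    (z : Fin r → K) (hT : ∀ v, T v ≠ 1) :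
    MvPolynomial.aeval (Sum.elim T z) (numW C eul m) = 0 ↔ ∑ v, MvPolynomial.aeval z (C v) * LL m (T v) = 0 := by
  have h1 : ∀ v, (1 - T v) ^ (m + 1) ≠ 0 := fun v => pow_ne_zero _ (sub_ne_zero.2 (Ne.symm (hT v)))
  have h2 : MvPolynomial.aeval (Sum.elim T z) (numW C eul m) =
      (∏ u, (1 - T u) ^ (m + 1)) * ∑ v, MvPolynomial.aeval z (C v) * LL m (T v) := by
    rw [numW, map_sum, mul_sum]
    refine sum_congr rfl fun v _ => ?_
    rw [map_mul, map_mul, map_prod, ← mul_prod_erase univ _ (mem_univ v), MvPolynomial.aeval_rename]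
    have h3 : MvPolynomial.aeval (Sum.elim T z)
        (Polynomial.aeval (MvPolynomial.X (Sum.inl v) : MvPolynomial (Fin n ⊕ Fin r) ℤ) (eul m)) =
        Polynomial.aeval (T v) (eul m) := by
      rw [← Polynomial.aeval_algHom_apply, MvPolynomial.aeval_X, Sum.elim_inl]
    have h4 : ∏ u ∈ univ.erase v, MvPolynomial.aeval (Sum.elim T z)
        ((1 - MvPolynomial.X (Sum.inl u) : MvPolynomial (Fin n ⊕ Fin r) ℤ) ^ (m + 1)) =
        ∏ u ∈ univ.erase v, (1 - T u) ^ (m + 1) := by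
      refine prod_congr rfl fun u _ => ?_
      rw [map_pow, map_sub, map_one, MvPolynomial.aeval_X, Sum.elim_inl]
    rw [h3, h4, Sum.elim_comp_inr, LL]
    have := h1 v
    field_simp
  rw [h2, mul_eq_zero, or_iff_right (prod_ne_zero_iff.2 fun v _ => h1 v)]

/-- The inequation of a pattern. -/
noncomputable def gW {n r : ℕ} (e : ℕ) (C : Fin n → MvPolynomial (Fin r) ℤ) (u : Fin n) (A B : Finset (Fin n)) :
    MvPolynomial (Fin n ⊕ Fin r) ℤ :=
  (∏ v, (MvPolynomial.X (Sum.inl v) * (1 - MvPolynomial.X (Sum.inl v)))) *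
    (∏ v ∈ univ.filter (fun v => v ∉ A), (MvPolynomial.X (Sum.inl v) - MvPolynomial.X (Sum.inl u))) *
    (∏ v ∈ univ.filter (fun v => v ∉ B), (MvPolynomial.X (Sum.inl v) * MvPolynomial.X (Sum.inl u) - 1)) *
    MvPolynomial.rename Sum.inr (∑ v ∈ A, C v - (-1) ^ e * ∑ v ∈ B, C v)

/-- The equations of a pattern. -/
noncomputable def eW {n r : ℕ} (R : ℕ → MvPolynomial (Fin r) ℤ) (u : Fin n) (A B : Finset (Fin n)) (t : ℕ) :
    MvPolynomial (Fin n ⊕ Fin r) ℤ :=
  if t % 2 = 0 then MvPolynomial.rename Sum.inr (R (t / 2)) else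
    if h : t / 2 < n then (if (⟨t / 2, h⟩ : Fin n) ∈ A then MvPolynomial.X (Sum.inl ⟨t / 2, h⟩) - MvPolynomial.X (Sum.inl u) else 0)
    else if h : t / 2 - n < n then
      (if (⟨t / 2 - n, h⟩ : Fin n) ∈ B then MvPolynomial.X (Sum.inl ⟨t / 2 - n, h⟩) * MvPolynomial.X (Sum.inl u) - 1 else 0)
    else 0

theorem eW_iff {n r : ℕ} (R : ℕ → MvPolynomial (Fin r) ℤ) (u : Fin n) (A B : Finset (Fin n)) {K : Type*} [Field K]
    (T : Fin n → K) (z : Fin r → K) :
    (∀ t, MvPolynomial.aeval (Sum.elim T z) (eW R u A B t) = 0) ↔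
      (∀ t, MvPolynomial.aeval z (R t) = 0) ∧ (∀ v ∈ A, T v = T u) ∧ (∀ v ∈ B, T v * T u = 1) := by
  constructor
  · intro h
    refine ⟨fun t => ?_, fun v hv => ?_, fun v hv => ?_⟩
    · have h1 := h (2 * t)
      rw [eW, if_pos (by omega), show 2 * t / 2 = t by omega, MvPolynomial.aeval_rename, Sum.elim_comp_inr] at h1
      exact h1
    · have h1 := h (2 * v + 1)
      have h2 : (2 * (v : ℕ) + 1) / 2 = v := by omega
      have h3 : (2 * (v : ℕ) + 1) / 2 < n := by rw [h2]; exact v.2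
      have h4 : (⟨(2 * (v : ℕ) + 1) / 2, h3⟩ : Fin n) = v := Fin.ext h2
      rw [eW, if_neg (by omega), dif_pos h3, h4, if_pos hv, map_sub, MvPolynomial.aeval_X, MvPolynomial.aeval_X, Sum.elim_inl,
        Sum.elim_inl, sub_eq_zero] at h1
      exact h1
    · have h1 := h (2 * (n + v) + 1)
      have h2 : (2 * (n + (v : ℕ)) + 1) / 2 - n = v := by omega
      have h3 : (2 * (n + (v : ℕ)) + 1) / 2 - n < n := by rw [h2]; exact v.2
      have h4 : (⟨(2 * (n + (v : ℕ)) + 1) / 2 - n, h3⟩ : Fin n) = v := Fin.ext h2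
      rw [eW, if_neg (by omega), dif_neg (by omega), dif_pos h3, h4, if_pos hv, map_sub, map_mul, MvPolynomial.aeval_X,
        MvPolynomial.aeval_X, Sum.elim_inl, Sum.elim_inl, map_one, sub_eq_zero] at h1
      exact h1
  · rintro ⟨h1, h2, h3⟩ t
    rw [eW]
    split_ifs with h4 h5 h6 h7 h8
    · rw [MvPolynomial.aeval_rename, Sum.elim_comp_inr]
      exact h1 _
    · rw [map_sub, MvPolynomial.aeval_X, MvPolynomial.aeval_X, Sum.elim_inl, Sum.elim_inl, h2 _ h6, sub_self]
    · exact map_zero _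
    · rw [map_sub, map_mul, MvPolynomial.aeval_X, MvPolynomial.aeval_X, Sum.elim_inl, Sum.elim_inl, map_one, h3 _ h8, sub_self]
    · exact map_zero _
    · exact map_zero _

theorem gW_ne_iff {n r : ℕ} (e : ℕ) (C : Fin n → MvPolynomial (Fin r) ℤ) (u : Fin n) (A B : Finset (Fin n)) {K : Type*}
    [Field K] (T : Fin n → K) (z : Fin r → K) :
    MvPolynomial.aeval (Sum.elim T z) (gW e C u A B) ≠ 0 ↔
      (∀ v, T v ≠ 0) ∧ (∀ v, T v ≠ 1) ∧ (∀ v, v ∉ A → T v ≠ T u) ∧ (∀ v, v ∉ B → T v * T u ≠ 1) ∧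
      ∑ v ∈ A, MvPolynomial.aeval z (C v) ≠ (-1) ^ e * ∑ v ∈ B, MvPolynomial.aeval z (C v) := by
  rw [gW, map_mul, map_mul, map_mul, map_prod, map_prod, map_prod, MvPolynomial.aeval_rename, Sum.elim_comp_inr]
  simp only [map_mul, map_sub, map_one, MvPolynomial.aeval_X, Sum.elim_inl, map_sum, map_pow, map_neg]
  rw [mul_ne_zero_iff, mul_ne_zero_iff, mul_ne_zero_iff, prod_ne_zero_iff, prod_ne_zero_iff, prod_ne_zero_iff, sub_ne_zero]
  simp only [mem_univ, true_implies, mul_ne_zero_iff, sub_ne_zero, mem_filter, true_and, and_assoc, forall_and]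
  constructor
  · rintro ⟨h1, h2, h3, h4, h5⟩
    exact ⟨h1, fun v => Ne.symm (h2 v), h3, h4, h5⟩
  · rintro ⟨h1, h2, h3, h4, h5⟩
    exact ⟨h1, fun v => Ne.symm (h2 v), h3, h4, h5⟩

/-- Theorem M, weighted. -/
theorem theoremMW (hsk : SparseW) (e n r : ℕ) (C : Fin n → MvPolynomial (Fin r) ℤ) (R : ℕ → MvPolynomial (Fin r) ℤ)
    (Zok : ℕ → (ℕ → Prop) → Prop) (hgap : GapG (fun m => m % 2 = e % 2) Zok) : Null (FDBadW e n r C R Zok) := by
  classical
  -- the patterns
  let Pat : Type := Fin n × Finset (Fin n) × Finset (Fin n)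
  let BadP : Pat → ℕ → Prop := fun i p => ∃ Z, Zok p Z ∧
    BadZ (fun m => m % 2 = e % 2) (eW R i.1 i.2.1 i.2.2) (numW C eul) (gW e C i.1 i.2.1 i.2.2) p Z
  have h1 : ∀ i : Pat, Null (BadP i) := by
    intro i ε hε
    obtain ⟨X₀, hX₀⟩ := densG (σ := Fin n ⊕ Fin r) (ι := Unit) (fun m => m % 2 = e % 2) Zok hgap (eW R i.1 i.2.1 i.2.2)
      (numW C eul) (fun _ => gW e C i.1 i.2.1 i.2.2) (fun T hT hE => by
        obtain ⟨_, hT⟩ := hT
        have h2 : T = Sum.elim (fun v => T (Sum.inl v)) (fun k => T (Sum.inr k)) := by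
          ext x
          rcases x with x | x <;> rfl
        set T' : Fin n → AlgebraicClosure ℚ := fun v => T (Sum.inl v) with hT'
        set z : Fin r → AlgebraicClosure ℚ := fun k => T (Sum.inr k) with hz
        rw [h2] at hT
        obtain ⟨h3, h4, h5, h6, h7⟩ := (gW_ne_iff e C _ _ _ T' z).1 hT
        rw [h2] at hE
        obtain ⟨h8, h9, h10⟩ := (eW_iff R _ _ _ T' z).1 hE
        have hA : univ.filter (fun v => T' v = T' i.1) = i.2.1 := by
          ext v
          rw [mem_filter]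
          constructor
          · rintro ⟨-, h11⟩
            by_contra h12
            exact h5 v h12 h11
          · exact fun h11 => ⟨mem_univ _, h9 v h11⟩
        have hB : univ.filter (fun v => T' v * T' i.1 = 1) = i.2.2 := by
          ext v
          rw [mem_filter]
          constructor
          · rintro ⟨-, h11⟩
            by_contra h12
            exact h6 v h12 h11
          · exact fun h11 => ⟨mem_univ _, h10 v h11⟩
        obtain ⟨D, c₀, hc₀, hD⟩ := hsk n e T' (fun v => MvPolynomial.aeval z (C v)) h3 h4 (by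
          intro hs
          have h11 := hs (T' i.1)
          apply h7
          have hA' : ∑ v ∈ i.2.1, MvPolynomial.aeval z (C v) =
              ∑ v ∈ univ.filter (fun v => T' v = T' i.1), MvPolynomial.aeval z (C v) := by rw [hA]
          have hB' : ∑ v ∈ i.2.2, MvPolynomial.aeval z (C v) =
              ∑ v ∈ univ.filter (fun v => T' v * T' i.1 = 1), MvPolynomial.aeval z (C v) := by rw [hB]
          refine hA'.trans (Eq.trans ?_ (congrArg (fun x => (-1) ^ e * x) hB').symm)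
          convert h11)
        refine ⟨D, c₀, hc₀, fun J S hS => hD J S fun m hm => ?_⟩
        obtain ⟨h12, h13, h14, h15, h16⟩ := hS m hm
        rw [h2] at h16
        exact ⟨h12, h13, h14, h15, (numW_zero_iff C m T' z h4).1 h16⟩)
      ε hε (fun p => p.Prime ∧ BadP i p) (fun p hp => ⟨hp.1, by
        obtain ⟨Z, hZ, hb⟩ := hp.2
        exact ⟨Z, hZ, (), hb⟩⟩)
    rw [Filter.eventually_atTop]
    refine ⟨X₀, fun X hX => le_trans (le_of_eq ?_) (hX₀ X hX)⟩
    unfold th
    congr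
  -- finite union
  have h2 : ∀ S : Finset Pat, Null (fun p => ∃ i ∈ S, BadP i p) := by
    intro S
    induction S using Finset.induction_on with
    | empty =>
      refine Null_of_bounded 0 fun p _ hp => ?_
      obtain ⟨i, hi, -⟩ := hp
      simp at hi
    | insert a S ha ih =>
      refine (ih.or (h1 a)).mono fun p _ hp => ?_
      obtain ⟨i, hi, hb⟩ := hp
      rcases mem_insert.1 hi with rfl | hi
      · exact Or.inr hb
      · exact Or.inl ⟨i, hi, hb⟩
  refine (h2 univ).mono fun p _ hp => ?_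
  obtain ⟨Z, hZ, Ω, _, _, T, z, hR, h0, h1', hs, hrel⟩ := hp
  -- some `T u` violates the symmetry
  have hε2 : ((-1 : Ω) ^ e) * (-1) ^ e = 1 := by
    rw [← mul_pow]
    simp
  obtain ⟨u, hu⟩ : ∃ u, ∑ v ∈ univ.filter (fun v => T v = T u), MvPolynomial.aeval z (C v) ≠
      (-1) ^ e * ∑ v ∈ univ.filter (fun v => T v * T u = 1), MvPolynomial.aeval z (C v) := by
    unfold SymW at hs
    push Not at hs
    obtain ⟨τ, hτ⟩ := hs
    by_cases h3 : ∃ u, T u = τ
    · obtain ⟨u, rfl⟩ := h3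
      exact ⟨u, hτ⟩
    · by_cases h4 : ∃ u, T u * τ = 1
      · obtain ⟨u, hu⟩ := h4
        refine ⟨u, fun h5 => hτ ?_⟩
        have hτu : τ = (T u)⁻¹ := eq_inv_of_mul_eq_one_right hu
        have h6 : univ.filter (fun v => T v = τ) = univ.filter (fun v => T v * T u = 1) := by
          ext v
          rw [mem_filter, mem_filter, hτu]
          refine and_congr Iff.rfl ⟨fun h => by rw [h, inv_mul_cancel₀ (h0 u)], fun h => eq_inv_of_mul_eq_one_left h⟩
        have h7 : univ.filter (fun v => T v * τ = 1) = univ.filter (fun v => T v = T u) := by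
          ext v
          rw [mem_filter, mem_filter, hτu]
          refine and_congr Iff.rfl ⟨fun h => ?_, fun h => by rw [h, mul_inv_cancel₀ (h0 u)]⟩
          rw [mul_inv_eq_one₀ (h0 u)] at h
          exact h
        rw [h6, h7, h5, ← mul_assoc, hε2, one_mul]
      · exfalso
        apply hτ
        rw [filter_false_of_mem (fun v _ h => h3 ⟨v, h⟩), filter_false_of_mem (fun v _ h => h4 ⟨v, h⟩)]
        simp
  refine ⟨(u, univ.filter (fun v => T v = T u), univ.filter (fun v => T v * T u = 1)), mem_univ _, Z, hZ, Ω, inferInstance,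
    inferInstance, Sum.elim T z, ?_, ?_, ?_⟩
  · rw [gW_ne_iff]
    refine ⟨h0, h1', fun v hv h => hv ?_, fun v hv h => hv ?_, hu⟩
    · rw [mem_filter]
      exact ⟨mem_univ _, h⟩
    · rw [mem_filter]
      exact ⟨mem_univ _, h⟩
  · rw [eW_iff]
    refine ⟨hR, fun v hv => (mem_filter.1 hv).2, fun v hv => (mem_filter.1 hv).2⟩
  · intro m hm hm2 hmp
    rcases hrel m hm hm2 hmp with h3 | h3
    · exact Or.inl h3
    · exact Or.inr ((numW_zero_iff C m T z h1').2 h3)

end Pool.Agent.FD
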