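import Pool.Agent.FD.Inst
import Pool.Agent.H69.FD.Eul
import Pool.Agent.H71.FD.Dens

/-!
# Project FD: Theorem M (gap theorem and sparseness of the Kummer relations give density zero)
-/

namespace Pool.Agent.FD

open Finset H69FD Pool.Agent.H71.FD

/-- The set `F_n`: for some field of characteristic `p` and some `n' ≤ n` there are `T_v ≠ 0, 1`, not stable under inversion,
with all available Kummer relations. -/
def FDBad (n p : ℕ) : Prop :=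
  ∃ n' : ℕ, n' ≤ n ∧ ∃ (Ω : Type) (_ : Field Ω) (_ : CharP Ω p) (T : Fin n' → Ω),
    (∀ v, T v ≠ 0) ∧ (∀ v, T v ≠ 1) ∧ (¬ ∃ s : Equiv.Perm (Fin n'), ∀ v, T (s v) * T v = 1) ∧
    ∀ m, Even m → 2 ≤ m → 2 * m + 1 ≤ p → (p : ℤ) ∣ (bernoulli (p - 1 - m)).num ∨ ∑ v, LL m (T v) = 0

/-- The sparseness of the relations over `ℚ̄`, counting form. -/
def SparseMain : Prop :=
  ∀ (n : ℕ) (T : Fin n → AlgebraicClosure ℚ), (∀ v, T v ≠ 0) → (∀ v, T v ≠ 1) →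
    (¬ ∃ s : Equiv.Perm (Fin n), ∀ v, T (s v) * T v = 1) → ∃ (D : ℕ) (c : ℝ), 0 < c ∧ ∀ (J : ℕ) (S : Finset ℕ),
    (∀ m ∈ S, Even m ∧ 2 ≤ m ∧ J ≤ m ∧ (m : ℝ) ≤ Real.exp (c * J) ∧ ∑ v, LL m (T v) = 0) → S.card ≤ D

/-- Theorem M. -/
theorem theoremM (hsk : SparseMain) (hgap : Gap) (n : ℕ) : Null (FDBad n) := by
  classical
  have h1 : ∀ n' : ℕ, Null (fun p => ∃ (Ω : Type) (_ : Field Ω) (_ : CharP Ω p) (T : Fin n' → Ω),
      (∀ v, T v ≠ 0) ∧ (∀ v, T v ≠ 1) ∧ (¬ ∃ s : Equiv.Perm (Fin n'), ∀ v, T (s v) * T v = 1) ∧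
      ∀ m, Even m → 2 ≤ m → 2 * m + 1 ≤ p → (p : ℤ) ∣ (bernoulli (p - 1 - m)).num ∨ ∑ v, LL m (T v) = 0) := by
    intro n' e he
    obtain ⟨X₀, hX₀⟩ := dens_PE n' eul hgap (hsk n') e he (fun p => p.Prime ∧
      ∃ (Ω : Type) (_ : Field Ω) (_ : CharP Ω p) (T : Fin n' → Ω),
      (∀ v, T v ≠ 0) ∧ (∀ v, T v ≠ 1) ∧ (¬ ∃ s : Equiv.Perm (Fin n'), ∀ v, T (s v) * T v = 1) ∧
      ∀ m, Even m → 2 ≤ m → 2 * m + 1 ≤ p → (p : ℤ) ∣ (bernoulli (p - 1 - m)).num ∨ ∑ v, LL m (T v) = 0) (fun p hp => hp)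
    rw [Filter.eventually_atTop]
    refine ⟨X₀, fun X hX => le_trans (le_of_eq ?_) (hX₀ X hX)⟩
    unfold th
    congr
  induction n with
  | zero =>
    refine (h1 0).mono fun p _ hp => ?_
    obtain ⟨n', hn', h2⟩ := hp
    obtain rfl : n' = 0 := by omega
    exact h2
  | succ n ih =>
    refine (ih.or (h1 (n + 1))).mono fun p _ hp => ?_
    obtain ⟨n', hn', h2⟩ := hp
    rcases Nat.lt_or_ge n' (n + 1) with h3 | h3
    · exact Or.inl ⟨n', by omega, h2⟩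
    · obtain rfl : n' = n + 1 := by omega
      exact Or.inr h2

end Pool.Agent.FD
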