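import Mathlib

/-!
# Project FD: the polynomials `Q_m` and the functional `Mf`

`Q_m(1/(1-s)) = (s d/ds)^m (1/(1-s))`.  `Mf w P = ∑ P_m Q_m(w)`, the regularised value of `∑_{a ≥ 0} P(a) T^a`, `w = 1/(1-T)`.
-/

namespace Pool.Agent.FD

open Polynomial Finset

/-- `Q_m(1/(1-s)) = (s d/ds)^m (1/(1-s))`. -/
noncomputable def Q : ℕ → ℤ[X]
  | 0 => X
  | m + 1 => (X ^ 2 - X) * derivative (Q m)

theorem Q_zero : Q 0 = X := rfl

theorem Q_succ (m : ℕ) : Q (m + 1) = (X ^ 2 - X) * derivative (Q m) := rfl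

/-- The recursion of the `Q_m`. -/
theorem Q_rec (m : ℕ) : X * Q m = (X - 1) * ∑ j ∈ range (m + 1), (m.choose j : ℤ[X]) * Q j + if m = 0 then X else 0 := by
  induction m with
  | zero =>
    simp [Q_zero]
    ring
  | succ m ih =>
    have h1 := congrArg derivative ih
    have h2 : derivative (∑ j ∈ range (m + 1), (m.choose j : ℤ[X]) * Q j) =
        ∑ j ∈ range (m + 1), (m.choose j : ℤ[X]) * derivative (Q j) := by
      rw [derivative_sum]
      refine sum_congr rfl fun j _ => ?_
      rw [derivative_mul, derivative_natCast, zero_mul, zero_add]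
    have h3 : ∑ j ∈ range (m + 1 + 1), ((m + 1).choose j : ℤ[X]) * Q j =
        ∑ j ∈ range (m + 1), (m.choose j : ℤ[X]) * Q j +
          (X ^ 2 - X) * ∑ j ∈ range (m + 1), (m.choose j : ℤ[X]) * derivative (Q j) := by
      rw [sum_range_succ' _ (m + 1)]
      have h4 : ∀ j ∈ range (m + 1), ((m + 1).choose (j + 1) : ℤ[X]) * Q (j + 1) =
          (m.choose j : ℤ[X]) * Q (j + 1) + (m.choose (j + 1) : ℤ[X]) * Q (j + 1) := by
        intro j _
        rw [Nat.choose_succ_succ, Nat.cast_add, add_mul]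
      rw [sum_congr rfl h4, sum_add_distrib]
      have h5 : ∑ j ∈ range (m + 1), (m.choose j : ℤ[X]) * Q j =
          ∑ j ∈ range (m + 1), (m.choose (j + 1) : ℤ[X]) * Q (j + 1) + Q 0 := by
        rw [sum_range_succ' _ m, sum_range_succ _ m]
        simp
      rw [h5, mul_sum]
      simp only [Nat.choose_zero_right, Nat.cast_one, one_mul]
      have h6 : ∑ j ∈ range (m + 1), (m.choose j : ℤ[X]) * Q (j + 1) =
          ∑ j ∈ range (m + 1), (X ^ 2 - X) * ((m.choose j : ℤ[X]) * derivative (Q j)) := by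
        refine sum_congr rfl fun j _ => ?_
        rw [Q_succ]
        ring
      rw [h6]
      ring
    rw [h3, if_neg (Nat.succ_ne_zero m), add_zero, Q_succ]
    set S := ∑ j ∈ range (m + 1), (m.choose j : ℤ[X]) * Q j with hS
    set S' := ∑ j ∈ range (m + 1), (m.choose j : ℤ[X]) * derivative (Q j) with hS'
    rw [derivative_add, derivative_mul, derivative_mul, derivative_X, derivative_sub, derivative_X, derivative_one, sub_zero,
      one_mul, one_mul, h2] at h1
    split_ifs at ih h1 with h0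
    · rw [derivative_X] at h1
      linear_combination (X ^ 2 - X) * h1 - (X - 1) * ih
    · rw [derivative_zero] at h1
      linear_combination (X ^ 2 - X) * h1 - (X - 1) * ih

variable {R : Type*} [CommRing R]

/-- The functional `P ↦ ∑ P_m Q_m(w)`. -/
noncomputable def Mf (w : R) : ℤ[X] →+ R :=
  (Polynomial.lsum (R := ℤ) fun m => LinearMap.toSpanSingleton ℤ R (aeval w (Q m))).toAddMonoidHom

theorem Mf_monomial (w : R) (m : ℕ) (a : ℤ) : Mf w (monomial m a) = a * aeval w (Q m) := by
  simp [Mf, Polynomial.lsum_apply, Polynomial.sum_monomial_index]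

theorem Mf_X_pow (w : R) (m : ℕ) : Mf w (X ^ m) = aeval w (Q m) := by
  rw [← monomial_one_right_eq_X_pow, Mf_monomial, Int.cast_one, one_mul]

theorem Mf_C_mul (w : R) (a : ℤ) (P : ℤ[X]) : Mf w (C a * P) = a * Mf w P := by
  rw [← smul_eq_C_mul, map_zsmul, zsmul_eq_mul]

/-- The shift relation. -/
theorem Mf_shift (w : R) (P : ℤ[X]) : w * Mf w P = (w - 1) * Mf w (P.comp (X + 1)) + w * (P.eval 0 : ℤ) := by
  induction P using Polynomial.induction_on' with
  | add P P' h1 h2 =>
    rw [map_add, add_comp, map_add, eval_add, Int.cast_add]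
    linear_combination h1 + h2
  | monomial m a =>
    rw [← C_mul_X_pow_eq_monomial, Mf_C_mul, mul_comp, C_comp, Mf_C_mul, pow_comp, X_comp, Mf_X_pow, eval_mul, eval_C, eval_pow,
      eval_X, Int.cast_mul]
    have h1 : Mf w ((X + 1) ^ m) = ∑ j ∈ range (m + 1), (m.choose j : R) * aeval w (Q j) := by
      rw [add_pow, map_sum]
      refine sum_congr rfl fun j _ => ?_
      rw [one_pow, mul_one, mul_comm, ← Mf_X_pow]
      have h3 := Mf_C_mul w (m.choose j : ℤ) (X ^ j)
      rw [Int.cast_natCast] at h3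
      rw [← h3]
      simp
    have h2 := congrArg (aeval w) (Q_rec m)
    rw [map_mul, aeval_X, map_add, map_mul, map_sub, aeval_X, map_one, map_sum] at h2
    simp only [map_mul, map_natCast] at h2
    rw [h1]
    split_ifs at h2 with h0
    · subst h0
      rw [aeval_X] at h2
      simp only [pow_zero, Int.cast_one] at *
      linear_combination (a : R) * h2
    · rw [map_zero] at h2
      rw [zero_pow h0]
      simp only [Int.cast_zero]
      linear_combination (a : R) * h2

/-- The difference operator. -/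
noncomputable def Dp (P : ℤ[X]) : ℤ[X] := P.comp (X + 1) - P

theorem Dp_eval (P : ℤ[X]) (a : ℤ) : (Dp P).eval a = P.eval (a + 1) - P.eval a := by
  simp [Dp]

theorem Dp_iter_eval (k : ℕ) (P : ℤ[X]) : (Dp^[k] P).eval = (fwdDiff 1)^[k] P.eval := by
  induction k generalizing P with
  | zero => rfl
  | succ k ih =>
    rw [Function.iterate_succ_apply, Function.iterate_succ_apply, ih]
    congr 1
    ext a
    rw [Dp_eval]
    rfl

theorem Dp_iter_zero (P : ℤ[X]) (k : ℕ) (hk : P.natDegree < k) : Dp^[k] P = 0 := by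
  apply Polynomial.funext
  intro a
  have h1 := congrFun (Dp_iter_eval k P) a
  rw [Polynomial.fwdDiff_iter_eq_zero_of_degree_lt hk] at h1
  rw [eval_zero]
  exact h1

/-- The basic recursion of the functional. -/
theorem Mf_rec (w : R) (P : ℤ[X]) : Mf w P = (w - 1) * Mf w (Dp P) + w * (P.eval 0 : ℤ) := by
  have h1 := Mf_shift w P
  rw [Dp, map_sub]
  linear_combination h1

/-- An additive functional with the recursion vanishes. -/
theorem uniq_zero (w : R) (M : ℤ[X] →+ R) (h : ∀ P, M P = (w - 1) * M (Dp P)) (P : ℤ[X]) : M P = 0 := by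
  have h1 : ∀ k, M P = (w - 1) ^ k * M (Dp^[k] P) := by
    intro k
    induction k with
    | zero => simp
    | succ k ih =>
      rw [ih, h (Dp^[k] P), Function.iterate_succ_apply', pow_succ]
      ring
  rw [h1 (P.natDegree + 1), Dp_iter_zero P _ (Nat.lt_succ_self _), map_zero, mul_zero]

/-- Uniqueness of the functional. -/
theorem uniq (w : R) (M : ℤ[X] →+ R) (h : ∀ P, M P = (w - 1) * M (Dp P) + w * (P.eval 0 : ℤ)) (P : ℤ[X]) : M P = Mf w P := by
  have h1 := uniq_zero w (M - Mf w) (fun P => by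
    rw [AddMonoidHom.sub_apply, AddMonoidHom.sub_apply, h P, Mf_rec w P]
    ring) P
  rw [AddMonoidHom.sub_apply, sub_eq_zero] at h1
  exact h1

/-- The functional from the differences at `0`. -/
theorem Mf_eq_sum (w : R) (P : ℤ[X]) : ∃ K, Mf w P = ∑ k ∈ range K, (w - 1) ^ k * w * ((Dp^[k] P).eval 0 : ℤ) := by
  have h1 : ∀ k, Mf w P = ∑ i ∈ range k, (w - 1) ^ i * w * ((Dp^[i] P).eval 0 : ℤ) + (w - 1) ^ k * Mf w (Dp^[k] P) := by
    intro k
    induction k with
    | zero => simp
    | succ k ih =>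
      rw [ih, sum_range_succ, Mf_rec w (Dp^[k] P), Function.iterate_succ_apply', pow_succ]
      ring
  refine ⟨P.natDegree + 1, ?_⟩
  rw [h1 (P.natDegree + 1), Dp_iter_zero P _ (Nat.lt_succ_self _), map_zero, mul_zero, add_zero]

/-- Divisible values have divisible differences. -/
theorem dvd_Dp_iter (n : ℤ) (P : ℤ[X]) (h : ∀ a, n ∣ P.eval a) (k : ℕ) : ∀ a, n ∣ (Dp^[k] P).eval a := by
  induction k with
  | zero => exact h
  | succ k ih =>
    intro a
    rw [Function.iterate_succ_apply', Dp_eval]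
    exact dvd_sub (ih _) (ih _)

/-- The regularisation at `l`. -/
theorem Mf_reg (l : ℕ) (T w w' : R) (hw : w * (1 - T) = 1) (hw' : w' * (1 - T ^ l) = 1) (P : ℤ[X]) :
    Mf w P = ∑ j ∈ range l, T ^ j * Mf w' (P.comp ((l : ℤ[X]) * X + (j : ℤ[X]))) := by
  let M : ℤ[X] →+ R :=
    { toFun := fun P => ∑ j ∈ range l, T ^ j * Mf w' (P.comp ((l : ℤ[X]) * X + (j : ℤ[X])))
      map_zero' := by simp
      map_add' := by
        intro P P'
        simp only [add_comp, map_add, mul_add, sum_add_distrib] }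
  symm
  refine uniq w M (fun P => ?_) P
  have h1 : M P = T * M (P.comp (X + 1)) + (P.eval 0 : ℤ) := by
    change ∑ j ∈ range l, T ^ j * Mf w' (P.comp ((l : ℤ[X]) * X + (j : ℤ[X]))) =
      T * ∑ j ∈ range l, T ^ j * Mf w' ((P.comp (X + 1)).comp ((l : ℤ[X]) * X + (j : ℤ[X]))) + (P.eval 0 : ℤ)
    have h2 : T * ∑ j ∈ range l, T ^ j * Mf w' ((P.comp (X + 1)).comp ((l : ℤ[X]) * X + (j : ℤ[X]))) =
        ∑ j ∈ range l, T ^ (j + 1) * Mf w' (P.comp ((l : ℤ[X]) * X + ((j + 1 : ℕ) : ℤ[X]))) := by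
      rw [mul_sum]
      refine sum_congr rfl fun j _ => ?_
      rw [comp_assoc]
      have h3 : (X + 1 : ℤ[X]).comp ((l : ℤ[X]) * X + (j : ℤ[X])) = (l : ℤ[X]) * X + ((j + 1 : ℕ) : ℤ[X]) := by
        simp [add_assoc]
      rw [h3]
      ring
    have h4 := sum_range_succ' (fun j => T ^ j * Mf w' (P.comp ((l : ℤ[X]) * X + ((j : ℕ) : ℤ[X])))) l
    rw [sum_range_succ] at h4
    set P0 := P.comp ((l : ℤ[X]) * X) with hP0
    have h5 : P.comp ((l : ℤ[X]) * X + ((0 : ℕ) : ℤ[X])) = P0 := by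
      rw [Nat.cast_zero, add_zero]
    have h6 : P.comp ((l : ℤ[X]) * X + (l : ℤ[X])) = P0.comp (X + 1) := by
      rw [hP0, comp_assoc]
      congr 1
      simp [mul_add]
    have h7 := Mf_shift w' P0
    have h8 : P0.eval 0 = P.eval 0 := by
      rw [hP0, eval_comp]
      simp
    rw [h5, h6, pow_zero, one_mul] at h4
    rw [h2]
    rw [h8] at h7
    have h9 : Mf w' P0 = T ^ l * Mf w' (P0.comp (X + 1)) + (P.eval 0 : ℤ) := by
      have h10 : (w' - 1) = w' * T ^ l := by linear_combination hw'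
      rw [h10] at h7
      linear_combination (1 - T ^ l) * h7 - (Mf w' P0 - T ^ l * Mf w' (P0.comp (X + 1)) - ((P.eval 0 : ℤ) : R)) * hw'
    linear_combination h4 + h9
  have h2 : M (Dp P) = M (P.comp (X + 1)) - M P := by
    rw [Dp, map_sub]
  rw [h2]
  linear_combination w * h1 + (- M (P.comp (X + 1))) * hw

end Pool.Agent.FD
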